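import Pool.Agent.helper55.FLD.Spec

/-!
# Row SP: spans over the p-adic numbers (MP_2e0e07_nt)
-/

set_option autoImplicit false

namespace Pool.Agent.FLD

private lemma SP_norm (p : ℕ) [Fact p.Prime] (k : ℕ) : ‖(p : ℚ_[p]) ^ k‖ ≤ 1 := by
  rw [norm_pow]
  exact pow_le_one₀ (norm_nonneg _) (Padic.norm_p_lt_one.le)

private lemma SP_bd (p : ℕ) [hp : Fact p.Prime] (a : ℚ_[p]) :
    ∃ m : ℕ, ‖(p : ℚ_[p]) ^ m * a‖ ≤ 1 := by
  have h1 : (1 : ℝ) < p := by exact_mod_cast hp.out.one_lt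
  obtain ⟨m, hm⟩ := pow_unbounded_of_one_lt ‖a‖ h1
  refine ⟨m, ?_⟩
  have h0 : (0 : ℝ) < (p : ℝ) ^ m := by positivity
  rw [norm_mul, norm_pow, Padic.norm_p, inv_pow, inv_mul_le_iff₀ h0, mul_one]
  exact hm.le

theorem SP : SP_stmt := by
  intro p _ E _ _ T h0 hadd hsmul x hx
  induction hx using Submodule.span_induction with
  | mem x hx => exact ⟨0, by simpa using hx⟩
  | zero => exact ⟨0, by simpa using h0⟩
  | add x y _ _ hx hy =>
    obtain ⟨k, hk⟩ := hx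
    obtain ⟨l, hl⟩ := hy
    refine ⟨k + l, ?_⟩
    have h1 : ((p : ℚ_[p]) ^ (k + l)) • (x + y) =
        ((p : ℚ_[p]) ^ l) • (((p : ℚ_[p]) ^ k) • x) + ((p : ℚ_[p]) ^ k) • (((p : ℚ_[p]) ^ l) • y) := by
      rw [smul_add, smul_smul, smul_smul, ← pow_add, ← pow_add, add_comm l k]
    rw [h1]
    exact hadd _ (hsmul _ (SP_norm p l) _ hk) _ (hsmul _ (SP_norm p k) _ hl)
  | smul a x _ hx =>
    obtain ⟨k, hk⟩ := hx
    obtain ⟨m, hm⟩ := SP_bd p a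
    refine ⟨k + m, ?_⟩
    have h1 : ((p : ℚ_[p]) ^ (k + m)) • (a • x) =
        ((p : ℚ_[p]) ^ m * a) • (((p : ℚ_[p]) ^ k) • x) := by
      rw [smul_smul, smul_smul]
      congr 1
      ring
    rw [h1]
    exact hsmul _ hm _ hk

end Pool.Agent.FLD
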